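import Pool.Agent.PST.StmtsET2

/-!
Squad PST, block ET, row CSI (helper47): the Casimir trace does not depend on the families.
-/

set_option autoImplicit false

open scoped BigOperators

noncomputable section

namespace Pool.Agent.PST.ET.H47

theorem csi : CsiStmt := by
  intro R D K L _ _ _ _ _ T x y X Y hS hX a
  symm
  calc ∑ k, x k * a * y k = ∑ k, (∑ l, T (Y l * x k) • X l) * a * y k := by
        refine Finset.sum_congr rfl fun k _ => ?_
        rw [hX (x k)]
    _ = ∑ k, ∑ l, X l * a * (T (Y l * x k) • y k) := by
        refine Finset.sum_congr rfl fun k _ => ?_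
        rw [Finset.sum_mul, Finset.sum_mul]
        refine Finset.sum_congr rfl fun l _ => ?_
        rw [smul_mul_assoc, smul_mul_assoc, mul_smul_comm]
    _ = ∑ l, X l * a * ∑ k, T (Y l * x k) • y k := by
        rw [Finset.sum_comm]
        refine Finset.sum_congr rfl fun l _ => ?_
        rw [Finset.mul_sum]
    _ = ∑ l, X l * a * Y l := by
        refine Finset.sum_congr rfl fun l _ => ?_
        rw [hS.e2]

end Pool.Agent.PST.ET.H47
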