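import Pool.Agent.PST.StmtsET3
import Pool.Agent.Helper18_PFC.QKE

/-!
Squad PST, block ET, row NBK (helper47): the elements of V are 1 modulo the Brauer kernel.
-/

set_option autoImplicit false

open scoped BigOperators

noncomputable section

namespace Pool.Agent.PST.ET.H47

open Pool.Agent.PFC (Fx BK cj bi IA BQ)

theorem cj_eq {F A V : Type} [Field F] [CommGroup V] [Ring A] [Algebra F A] (α : V →* A) (u : V)
    (a : A) : cj F α u a = α u * a * α u⁻¹ := by
  simp [cj, bi, mul_assoc]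

theorem nbk : NbkStmt := by
  intro ℓ _ F V _ _ _ _ N hV hB v
  obtain ⟨β, s, h⟩ := hB
  have hv : ∀ v, β (N.ι v) = (1 : F) := fun v => h.cov v
  have hone : β 1 = (1 : F) := by
    have h1 := hv 1
    rwa [N.ι.map_one] at h1
  have hfix : N.ι v - 1 ∈ Fx (cj F N.ι) ⊤ := by
    intro u _
    rw [cj_eq, mul_sub, sub_mul, ← map_mul, ← map_mul, mul_one, ← map_mul, mul_inv_cancel, map_one,
      mul_comm u v, mul_assoc, mul_inv_cancel, mul_one]
  refine ((Pool.Agent.PFC.H18.qke ℓ F V N.A (IA.one F V).A (cj F N.ι) (cj F (IA.one F V).ι) ⊤ β s hV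
    h.toBrS).2.1 (N.ι v - 1) hfix).1 ?_
  rw [map_sub]
  exact sub_eq_zero.2 ((hv v).trans hone.symm)

end Pool.Agent.PST.ET.H47
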