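import Pool.Agent.PST.StmtsET3

/-!
Squad PST, block ET, row TWC (helper47): the form and the Casimir element of the matrix algebra.
-/

set_option autoImplicit false

open scoped BigOperators

noncomputable section

namespace Pool.Agent.PST.ET.H47

/-- the form -/
def twT (n : ℕ) {R D : Type} [CommRing R] [Ring D] [Algebra R D] (T : D →ₗ[R] R) :
    Matrix (Fin n) (Fin n) D →ₗ[R] R where
  toFun M := ∑ a, T (M a a)
  map_add' A B := by simp [Finset.sum_add_distrib]
  map_smul' r A := by simp [Finset.mul_sum]

theorem twc : TwcStmt := by
  intro n R D K _ _ _ _ T x y hS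
  refine ⟨twT n T, Fin n × Fin n × K, inferInstance, fun l => Matrix.single l.1 l.2.1 (x l.2.2),
    fun l => Matrix.single l.2.1 l.1 (y l.2.2), ⟨?_, ?_, ?_⟩, ?_⟩
  · intro A B
    show ∑ a, T ((A * B) a a) = ∑ a, T ((B * A) a a)
    simp only [Matrix.mul_apply, map_sum]
    rw [Finset.sum_comm]
    refine Finset.sum_congr rfl fun a _ => Finset.sum_congr rfl fun b _ => ?_
    exact hS.sym _ _
  · intro Z
    have h1 : ∀ (a b : Fin n) (k : K), twT n T (Matrix.single b a (y k) * Z) = T (y k * Z a b) := by
      intro a b k
      show ∑ c, T ((Matrix.single b a (y k) * Z) c c) = _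
      rw [Finset.sum_eq_single b]
      · rw [Matrix.single_mul_apply_same]
      · intro c _ hc
        rw [Matrix.single_mul_apply_of_ne _ _ _ _ _ hc, map_zero]
      · intro h
        exact absurd (Finset.mem_univ b) h
    ext i j
    rw [Fintype.sum_prod_type, Matrix.sum_apply]
    rw [Finset.sum_eq_single i]
    · rw [Fintype.sum_prod_type, Matrix.sum_apply, Finset.sum_eq_single j]
      · rw [Matrix.sum_apply]
        simp only [h1, Matrix.smul_apply, Matrix.single_apply_same]
        exact hS.e1 (Z i j)
      · intro b _ hb
        rw [Matrix.sum_apply]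
        refine Finset.sum_eq_zero fun k _ => ?_
        simp [Matrix.single_apply, hb]
      · intro h
        exact absurd (Finset.mem_univ j) h
    · intro a _ ha
      rw [Fintype.sum_prod_type, Matrix.sum_apply]
      refine Finset.sum_eq_zero fun b _ => ?_
      rw [Matrix.sum_apply]
      refine Finset.sum_eq_zero fun k _ => ?_
      simp [Matrix.single_apply, ha]
    · intro h
      exact absurd (Finset.mem_univ i) h
  · intro Z
    have h1 : ∀ (a b : Fin n) (k : K), twT n T (Z * Matrix.single a b (x k)) = T (Z b a * x k) := by
      intro a b k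
      show ∑ c, T ((Z * Matrix.single a b (x k)) c c) = _
      rw [Finset.sum_eq_single b]
      · rw [Matrix.mul_single_apply_same]
      · intro c _ hc
        rw [Matrix.mul_single_apply_of_ne _ _ _ _ _ hc, map_zero]
      · intro h
        exact absurd (Finset.mem_univ b) h
    ext i j
    rw [Fintype.sum_prod_type, Matrix.sum_apply]
    rw [Finset.sum_eq_single j]
    · rw [Fintype.sum_prod_type, Matrix.sum_apply, Finset.sum_eq_single i]
      · rw [Matrix.sum_apply]
        simp only [h1, Matrix.smul_apply, Matrix.single_apply_same]
        exact hS.e2 (Z i j)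
      · intro b _ hb
        rw [Matrix.sum_apply]
        refine Finset.sum_eq_zero fun k _ => ?_
        simp [Matrix.single_apply, hb]
      · intro h
        exact absurd (Finset.mem_univ i) h
    · intro a _ ha
      rw [Fintype.sum_prod_type, Matrix.sum_apply]
      refine Finset.sum_eq_zero fun b _ => ?_
      rw [Matrix.sum_apply]
      refine Finset.sum_eq_zero fun k _ => ?_
      simp [Matrix.single_apply, ha]
    · intro h
      exact absurd (Finset.mem_univ j) h
  · ext i j
    simp only [Matrix.single_mul_single_same]
    rw [Fintype.sum_prod_type, Matrix.sum_apply]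
    have h1 : ∀ a : Fin n, (∑ l : Fin n × K, Matrix.single a a (x l.2 * y l.2)) i j =
        if a = i ∧ a = j then (n : R) • ∑ k, x k * y k else 0 := by
      intro a
      rw [Fintype.sum_prod_type]
      simp only [Finset.sum_const, Finset.card_univ, Fintype.card_fin]
      rw [Matrix.smul_apply, Matrix.sum_apply]
      by_cases h : a = i ∧ a = j
      · rw [if_pos h]
        obtain ⟨rfl, rfl⟩ := h
        simp only [Matrix.single_apply_same]
        rw [Nat.cast_smul_eq_nsmul]
      · rw [if_neg h]
        have : ∀ k, Matrix.single a a (x k * y k) i j = 0 := by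
          intro k
          rw [Matrix.single_apply, if_neg h]
        simp [this]
    simp only [h1]
    rw [Matrix.scalar_apply, Matrix.diagonal_apply]
    by_cases h : i = j
    · subst h
      simp
    · rw [if_neg h]
      refine Finset.sum_eq_zero fun a _ => ?_
      rw [if_neg]
      rintro ⟨rfl, rfl⟩
      exact h rfl

end Pool.Agent.PST.ET.H47
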